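import Pool.Agent.Lib.MP_144d21_co.XU.Iface

/-!
# MP_144d21_co, project X4: tuples with `k ≥ 4`, `r_3 ≤ 2`, `r_4 = ... = r_k = 1` (helper20).
Module statements. Proofs on paper: Paper.md in this folder. Every module may use the statements
listed under `Uses` as hypotheses (in this order); the capital names without explanation are those
of XU/Iface.lean and X2/IfaceS.lean (all proved: COEF, CHI, GLUE, ..., BNN, BMON, STX, K4, BPOS).
-/

set_option autoImplicit false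

namespace Pool.Agent.Xu.X4

open Finset Polynomial

/-! ### Definitions -/

/-- `Q` is a clique -/
def Clq {V : Type} (G : SimpleGraph V) (Q : Finset V) : Prop :=
  ∀ x ∈ Q, ∀ y ∈ Q, x ≠ y → G.Adj x y

/-- `(X - 0) ^ (s 0) * ... * (X - k) ^ (s k)` -/
noncomputable def PP (k : ℕ) (s : ℕ → ℕ) : ℤ[X] :=
  ∏ j ∈ range (k + 1), (X - C (j : ℤ)) ^ s j

/-- the class for which chordality is proved -/
def Cls {V : Type} [Fintype V] [DecidableEq V] (G : SimpleGraph V) (S : Finset V) : Prop :=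
  ∃ (k : ℕ) (s : ℕ → ℕ), chi G S = PP k s ∧ s 3 ≤ 2 ∧ ∀ j, 4 ≤ j → s j ≤ 1

/-! ### 1. Beta -/

/-- BPOS (proved: X2.H44.bposAll) -/
def BposS : Prop := ∀ (V : Type) [Fintype V] [DecidableEq V] (G : SimpleGraph V) (S : Finset V),
  TwoConn G S → 0 < bet G S

/-- DV. Uses STX, BMON. -/
def DvS : Prop := ∀ (V : Type) [Fintype V] [DecidableEq V] (G : SimpleGraph V) (S : Finset V)
  (v : V), ThreeConn G S → v ∈ S →
  (((nb G S v).card : ℤ) - 1) * bet G (S.erase v) ≤ bet G S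

/-- CLQ: complete graphs. Uses nothing (chi_clique). -/
def ClqS : Prop := ∀ (V : Type) [Fintype V] [DecidableEq V] (G : SimpleGraph V) (S : Finset V),
  Clq G S → (2 ≤ S.card → bet G S = ((S.card - 2).factorial : ℤ)) ∧ ChordalOn G S

/-- BCON: deletion and contraction in 2-connected graphs. Uses BETDC, BNN. -/
def BconS : Prop := ∀ (V : Type) [Fintype V] [DecidableEq V] (G : SimpleGraph V) (S : Finset V)
  (u v : V), TwoConn G S → 3 ≤ S.card → u ∈ S → v ∈ S → G.Adj u v →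
  Conn G (S.erase u) ∧ Conn (del G u v) S ∧ bet (con G u v) (S.erase u) ≤ bet G S

/-- CONX: contraction of an edge of a 2-connected graph -/
def ConxS : Prop := ∀ (V : Type) [Fintype V] [DecidableEq V] (G : SimpleGraph V) (S : Finset V)
  (u v : V), TwoConn G S → 3 ≤ S.card → u ∈ S → v ∈ S → G.Adj u v →
  TwoConn (con G u v) (S.erase u) ∨ ∃ S1 S2 : Finset V, S1 ∪ S2 = S ∧ S1 ∩ S2 = {u, v} ∧
    Sep G S1 S2 ∧ S1 ≠ S ∧ S2 ≠ S

/-- CUTE: a cut at an edge (BETCUT and CUTCONN for adjacent `x`, `y`). Uses BETCUT, CUTCONN,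
BPOS. -/
def CuteS : Prop := ∀ (V : Type) [Fintype V] [DecidableEq V] (G : SimpleGraph V)
  (S S1 S2 : Finset V) (x y : V), TwoConn G S → G.Adj x y → S1 ∪ S2 = S → S1 ∩ S2 = {x, y} →
  Sep G S1 S2 → S1 ≠ S → S2 ≠ S →
  TwoConn G S1 ∧ TwoConn G S2 ∧ S1.card < S.card ∧ S2.card < S.card ∧ bet G S1 ≤ bet G S ∧
    bet G S2 ≤ bet G S

/-- SUBM: 2-connected induced subgraphs. Uses CONX, BCON, CUTE, BMON. -/
def SubmS : Prop := ∀ (V : Type) [Fintype V] [DecidableEq V] (G : SimpleGraph V)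
  (S T : Finset V), TwoConn G S → TwoConn G T → T ⊆ S → bet G T ≤ bet G S

/-- MINOR: a clique `Q` and a connected rest which sees all of `Q` (a complete minor).
Uses CONX, BCON, CUTE, CLQ. -/
def MinorS : Prop := ∀ (V : Type) [Fintype V] [DecidableEq V] (G : SimpleGraph V)
  (S Q : Finset V), TwoConn G S → Q ⊆ S → Clq G Q → 2 ≤ Q.card → Conn G (S \ Q) →
  (∀ q ∈ Q, ∃ d ∈ S \ Q, G.Adj q d) → ((Q.card - 1).factorial : ℤ) ≤ bet G S

/-- TUT: Tutte's lemma on contractible edges -/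
def TutS : Prop := ∀ (V : Type) [Fintype V] [DecidableEq V] (G : SimpleGraph V) (S : Finset V),
  ThreeConn G S → 5 ≤ S.card → ∃ u ∈ S, ∃ v ∈ S, G.Adj u v ∧ ThreeConn (con G u v) (S.erase u)

/-- TRB. Uses TUT, BETDC, DEL2, K4, BPOS. -/
def TrbS : Prop := ∀ (V : Type) [Fintype V] [DecidableEq V] (G : SimpleGraph V) (S : Finset V),
  ThreeConn G S → (S.card : ℤ) - 2 ≤ bet G S

/-- MD. Uses DV, DICH, BETCUT, CUTCONN, BPOS. -/
def MdS : Prop := ∀ (V : Type) [Fintype V] [DecidableEq V] (G : SimpleGraph V) (S : Finset V)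
  (x y : V) (d : ℕ), TwoConn G S → 3 ≤ S.card → x ∈ S → y ∈ S → G.Adj x y →
  (∀ v ∈ S, v ≠ x → v ≠ y → d ≤ (nb G S v).card) → ((d - 1).factorial : ℤ) ≤ bet G S

/-- NDC: minimum degree `d` and a separation of order 2. Uses MD, BETCUT, CUTCONN. -/
def NdcS : Prop := ∀ (V : Type) [Fintype V] [DecidableEq V] (G : SimpleGraph V) (S : Finset V)
  (d : ℕ), TwoConn G S → 4 ≤ S.card → ¬ ThreeConn G S → (∀ v ∈ S, d ≤ (nb G S v).card) →
  ((d - 1).factorial : ℤ) * ((d - 1).factorial : ℤ) ≤ bet G S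

/-- ND. Uses NDC, TRB, DV. -/
def NdS : Prop := ∀ (V : Type) [Fintype V] [DecidableEq V] (G : SimpleGraph V) (S : Finset V)
  (d : ℕ), 3 ≤ d → TwoConn G S → d + 3 ≤ S.card → (∀ v ∈ S, d ≤ (nb G S v).card) →
  2 * ((d - 1).factorial : ℤ) ≤ bet G S

/-! ### 2. Colourings -/

/-- BRK: Brooks' theorem for 3-connected graphs -/
def BrkS : Prop := ∀ (V : Type) [Fintype V] [DecidableEq V] (G : SimpleGraph V) (S : Finset V)
  (k : ℕ), ThreeConn G S → ¬ Clq G S → (∀ v ∈ S, (nb G S v).card ≤ k) → (cols G S k).Nonempty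

/-- COLM: restriction, more colours, small sets, two disjoint non-edges -/
def ColmS : Prop := ∀ (V : Type) [Fintype V] [DecidableEq V] (G : SimpleGraph V) (S : Finset V)
  (k : ℕ), (∀ T ⊆ S, (cols G S k).Nonempty → (cols G T k).Nonempty) ∧
  (∀ l, k ≤ l → (cols G S k).Nonempty → (cols G S l).Nonempty) ∧
  (S.card ≤ k → (cols G S k).Nonempty) ∧
  (∀ v ∈ S, (nb G S v).card < k → (cols G (S.erase v) k).Nonempty → (cols G S k).Nonempty) ∧
  (∀ a ∈ S, ∀ b ∈ S, ∀ c ∈ S, ∀ d ∈ S, a ≠ b → c ≠ d → a ≠ c → a ≠ d → b ≠ c → b ≠ d →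
    ¬ G.Adj a b → ¬ G.Adj c d → S.card ≤ k + 2 → (cols G S k).Nonempty)

/-- CRIT: critical subgraphs. Uses COLM, GLUE. -/
def CritS : Prop := ∀ (V : Type) [Fintype V] [DecidableEq V] (G : SimpleGraph V) (S : Finset V)
  (k : ℕ), 3 ≤ k → cols G S k = ∅ → (∀ Q ⊆ S, Clq G Q → Q.card ≤ k) →
  ∃ S' ⊆ S, cols G S' k = ∅ ∧ TwoConn G S' ∧ k + 3 ≤ S'.card ∧
    ∀ v ∈ S', k ≤ (nb G S' v).card

/-- STEP1. Uses CRIT, SUBM, BRK, DV, NDC, ND. -/
def Step1S : Prop := ∀ (V : Type) [Fintype V] [DecidableEq V] (G : SimpleGraph V) (S : Finset V)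
  (k : ℕ), 4 ≤ k → TwoConn G S → cols G S k = ∅ → (∀ Q ⊆ S, Clq G Q → Q.card ≤ k) →
  2 * ((k - 1).factorial : ℤ) < bet G S

/-! ### 3. Polynomials -/

/-- PFAC: monic divisors -/
def PfacS : Prop := ∀ (k : ℕ) (s : ℕ → ℕ) (P Q : ℤ[X]), P.Monic → Q.Monic → P * Q = PP k s →
  ∃ t u : ℕ → ℕ, P = PP k t ∧ Q = PP k u ∧ ∀ j, t j + u j = s j

/-- PEV: values and derivatives -/
def PevS : Prop := ∀ (k : ℕ) (s : ℕ → ℕ),
  (∀ q : ℕ, (PP k s).eval (q : ℤ) = 0 ↔ q ≤ k ∧ s q ≠ 0) ∧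
  (2 ≤ s 0 → (derivative (PP k s)).eval 0 = 0) ∧
  (1 ≤ k → 2 ≤ s 1 → (derivative (PP k s)).eval 1 = 0) ∧
  (1 ≤ k → s 0 = 1 → s 1 = 1 → (-1) ^ (PP k s).natDegree * (derivative (PP k s)).eval 1 =
    ∏ j ∈ Ico 2 (k + 1), ((j : ℤ) - 1) ^ s j) ∧
  (∀ a, a ≤ k + 1 → descPochhammer ℤ a * PP k s = PP k fun j => s j + if j < a then 1 else 0)

/-- GLP: the two parts at a clique separator (of any order, 0 and 1 included).
Uses GLUE, CHI, COEF, PFAC, PEV. -/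
def GlpS : Prop := ∀ (V : Type) [Fintype V] [DecidableEq V] (G : SimpleGraph V)
  (S1 S2 : Finset V) (k : ℕ) (s : ℕ → ℕ), Sep G S1 S2 → Clq G (S1 ∩ S2) →
  chi G (S1 ∪ S2) = PP k s →
  ∃ t u : ℕ → ℕ, chi G S1 = PP k t ∧ chi G S2 = PP k u ∧ ∀ j, t j ≤ s j ∧ u j ≤ s j

/-- NUMK: 2-connected members. Uses PEV, CHI, COEF, ALPHA, BPOS, COLM. -/
def NumkS : Prop := ∀ (V : Type) [Fintype V] [DecidableEq V] (G : SimpleGraph V) (S : Finset V)
  (k : ℕ) (s : ℕ → ℕ), 4 ≤ k → TwoConn G S → chi G S = PP k s → s k ≠ 0 → s 3 ≤ 2 →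
  (∀ j, 4 ≤ j → s j ≤ 1) → cols G S k = ∅ ∧ bet G S ≤ 2 * ((k - 1).factorial : ℤ)

/-! ### 4. End -/

/-- XU3: Xu's conjecture for `k = 3` (X2, proved there) -/
def Xu3S : Prop := ∀ (V : Type) [Fintype V] [DecidableEq V] (G : SimpleGraph V) (S : Finset V)
  (a : ℕ), Good G S a → ChordalOn G S

/-- MAIN. Uses GLP, CHG, XU3, NUMK, STEP1, CLQ, MINOR. -/
def MainS : Prop := ∀ (V : Type) [Fintype V] [DecidableEq V] (G : SimpleGraph V) (S : Finset V),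
  Cls G S → ChordalOn G S

end Pool.Agent.Xu.X4
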