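import Pool.Agent.Lib.MP_144d21_co.X4.Iface

/-!
# MP_144d21_co, project X4, second part (helper20): at most one of `r_3, ..., r_k` is `2`, the others
are `1`. Module statements. Proofs on paper: Paper2.md in this folder.
-/

set_option autoImplicit false

namespace Pool.Agent.Xu.X4

open Finset Polynomial

/-- the class for which chordality is proved: `s j ≤ 1` for all `j ≥ 3` except one `j0`, for which
`s j0 ≤ 2` -/
def ClsB {V : Type} [Fintype V] [DecidableEq V] (G : SimpleGraph V) (S : Finset V) : Prop :=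
  ∃ (k : ℕ) (s : ℕ → ℕ) (j0 : ℕ), 3 ≤ j0 ∧ chi G S = PP k s ∧ s j0 ≤ 2 ∧
    ∀ j, 3 ≤ j → j ≠ j0 → s j ≤ 1

/-- CKL: a vertex whose deletion leaves a 3-connected graph (Chartrand, Kaugars, Lick) -/
def CklS : Prop := ∀ (V : Type) [Fintype V] [DecidableEq V] (G : SimpleGraph V) (S : Finset V),
  ThreeConn G S → (∀ v ∈ S, 4 ≤ (nb G S v).card) → ∃ v ∈ S, ThreeConn G (S.erase v)

/-- DVP: DV with a non-edge between two neighbours. Uses STX, BMON, BETDC, CON2, BPOS. -/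
def DvpS : Prop := ∀ (V : Type) [Fintype V] [DecidableEq V] (G : SimpleGraph V) (S : Finset V)
  (v a b : V), ThreeConn G S → ThreeConn G (S.erase v) → v ∈ S → a ∈ nb G S v → b ∈ nb G S v →
  a ≠ b → ¬ G.Adj a b → (((nb G S v).card : ℤ) - 1) * bet G (S.erase v) < bet G S

/-- CRI0: critical subgraphs. Uses COLM, GLUE. -/
def Cri0S : Prop := ∀ (V : Type) [Fintype V] [DecidableEq V] (G : SimpleGraph V) (S : Finset V)
  (k : ℕ), 2 ≤ k → cols G S k = ∅ → ∃ S' ⊆ S, cols G S' k = ∅ ∧ TwoConn G S' ∧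
    k + 1 ≤ S'.card ∧ ∀ v ∈ S', k ≤ (nb G S' v).card

/-- CHB: the chromatic number bounds beta. Uses CRI0, SUBM, MD. -/
def ChbS : Prop := ∀ (V : Type) [Fintype V] [DecidableEq V] (G : SimpleGraph V) (S : Finset V)
  (k : ℕ), 2 ≤ k → TwoConn G S → cols G S k = ∅ → ((k - 1).factorial : ℤ) ≤ bet G S

/-- COLX: one more colour. `v` alone, or `v` and a non-neighbour `x`, get the new colour -/
def ColxS : Prop := ∀ (V : Type) [Fintype V] [DecidableEq V] (G : SimpleGraph V) (S : Finset V)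
  (k : ℕ) (v : V), v ∈ S → cols G S (k + 1) = ∅ → cols G (S.erase v) k = ∅ ∧
  ∀ x ∈ S, x ≠ v → ¬ G.Adj v x → cols G ((S.erase v).erase x) k = ∅

/-- STEP1B. Uses CRIT, CHB, COLX, SUBM, NDC, ND, CKL, DV, DVP. -/
def Step1bS : Prop := ∀ (V : Type) [Fintype V] [DecidableEq V] (G : SimpleGraph V) (S : Finset V)
  (k : ℕ), 4 ≤ k → TwoConn G S → cols G S k = ∅ → (∀ Q ⊆ S, Clq G Q → Q.card ≤ k) →
  ((k - 1 : ℕ) : ℤ) * ((k - 1).factorial : ℤ) < bet G S

/-- NUMB: 2-connected members. Uses PEV, CHI, COEF, ALPHA, BPOS. -/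
def NumbS : Prop := ∀ (V : Type) [Fintype V] [DecidableEq V] (G : SimpleGraph V) (S : Finset V)
  (k : ℕ) (s : ℕ → ℕ) (j0 : ℕ), 4 ≤ k → 3 ≤ j0 → TwoConn G S → chi G S = PP k s → s k ≠ 0 →
  s j0 ≤ 2 → (∀ j, 3 ≤ j → j ≠ j0 → s j ≤ 1) →
  cols G S k = ∅ ∧ bet G S ≤ ((k - 1 : ℕ) : ℤ) * ((k - 1).factorial : ℤ)

/-- MAINB. Uses GLP, CHG, XU3, NUMB, STEP1B, CLQ, MINOR. -/
def MainbS : Prop := ∀ (V : Type) [Fintype V] [DecidableEq V] (G : SimpleGraph V) (S : Finset V),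
  ClsB G S → ChordalOn G S

end Pool.Agent.Xu.X4
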